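import Pool.Agent.DB.F.Img

/-!
# DB-F-Arc: a subcontinuum on which the late bonding maps are injective is an arc

PLAN.  `g z = z l0` is injective on `A`: if `z l0 = w l0` then by induction `z l = w l` for all `l ≥ l0`
(`z l = f (x l) (z (l+1))`, `InjOn`), and for `l < l0` by applying the maps (`inv_agree`).  So `g : A → img A l0` is
a continuous bijection of a compact space onto a Hausdorff space: homeomorphism
(`Continuous.homeoOfEquivCompactToT2`).  `img A l0 = pl w N '' S` with `S = {h ∈ Icc 0 N | pl w N h ∈ img A l0}`;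
`pl w N` is a homeomorphism of the compact `Icc 0 N` onto its image (`pl_continuous`, `pl_injOn`), so `S` is
compact, connected (image of `img A l0` under the inverse) and not a single point (`A` is not: `g`
injective).  A compact connected subset of `ℝ` with more than one point is `Icc a b`, `a < b`
(`IsPreconnected.Icc_subset`, min, max), homeomorphic to `Icc 0 1` (`iccHomeoI` or the affine map).
-/

namespace Pool.Agent.DB

open Set

variable {M : Model} {x : ℕ → M.V}

private theorem agree_up {A : Set (ℕ → M.V → ℝ)} (hA : A ⊆ M.Lim x) {l0 : ℕ}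
    (hinj : ∀ l, l0 ≤ l → InjOn (M.f (x l)) (img A (l + 1))) {z w : ℕ → M.V → ℝ} (hz : z ∈ A)
    (hw : w ∈ A) (h : z l0 = w l0) : z = w := by
  have up : ∀ d, z (l0 + d) = w (l0 + d) := by
    intro d
    induction d with
    | zero => exact h
    | succ d ih =>
      have h1 := (hA hz (l0 + d)).2
      have h2 := (hA hw (l0 + d)).2
      rw [ih] at h1
      exact hinj (l0 + d) (Nat.le_add_right _ _) ⟨z, hz, rfl⟩ ⟨w, hw, rfl⟩ (h1.symm.trans h2)
  funext l
  rcases le_total l0 l with hl | hl
  · have h3 := up (l - l0)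
    rwa [Nat.add_sub_cancel' hl] at h3
  · exact inv_agree (lim_eq M x ▸ hA hz) (lim_eq M x ▸ hA hw) h hl

theorem arc_of_inj (hx : Good M x) {A : Set (ℕ → M.V → ℝ)} (hA : A ⊆ M.Lim x)
    (hAk : IsCompact A) (hAc : IsConnected A) (hn : A.Nontrivial) {l0 : ℕ}
    (hinj : ∀ l, l0 ≤ l → InjOn (M.f (x l)) (img A (l + 1))) {w : ℕ → M.V} {N : ℕ}
    (hw : ∀ i j, i ≤ N → j ≤ N → w i = w j → i = j)
    (hA0 : img A l0 ⊆ pl w N '' Icc 0 (N : ℝ)) : Nonempty (A ≃ₜ Icc (0 : ℝ) 1) := by
  have _hx := hx
  have hAcs : CompactSpace A := isCompact_iff_compactSpace.1 hAk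
  have hconnA : ConnectedSpace A := isConnected_iff_connectedSpace.1 hAc
  set S : Set ℝ := {h | h ∈ Icc (0 : ℝ) N ∧ pl w N h ∈ img A l0} with hS
  have hSk : IsCompact S := by
    have h1 : S = Icc (0 : ℝ) N ∩ pl w N ⁻¹' (img A l0) := rfl
    rw [h1]
    exact isCompact_Icc.inter_right ((img_compact hAk l0).isClosed.preimage (pl_continuous w N))
  have hScs : CompactSpace S := isCompact_iff_compactSpace.1 hSk
  -- the two bijections onto `img A l0`
  let fA : A → img A l0 := fun z => ⟨z.1 l0, ⟨z.1, z.2, rfl⟩⟩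
  have hfA : Function.Bijective fA := by
    constructor
    · intro z z' h
      have h1 : z.1 l0 = z'.1 l0 := congrArg Subtype.val h
      exact Subtype.ext (agree_up hA hinj z.2 z'.2 h1)
    · rintro ⟨_, z, hz, rfl⟩
      exact ⟨⟨z, hz⟩, rfl⟩
  let fS : S → img A l0 := fun h => ⟨pl w N h.1, h.2.2⟩
  have hfS : Function.Bijective fS := by
    constructor
    · intro h h' he
      have h1 : pl w N h.1 = pl w N h'.1 := congrArg Subtype.val he
      exact Subtype.ext (pl_injOn w hw h.2.1 h'.2.1 h1)
    · rintro ⟨p, hp⟩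
      obtain ⟨h, hh, hhp⟩ := hA0 hp
      have hp' : pl w N h ∈ img A l0 := by rw [hhp]; exact hp
      exact ⟨⟨h, hh, hp'⟩, Subtype.ext hhp⟩
  have cA : Continuous fA :=
    Continuous.subtype_mk ((continuous_apply l0).comp continuous_subtype_val) _
  have cS : Continuous fS :=
    Continuous.subtype_mk ((pl_continuous w N).comp continuous_subtype_val) _
  let hAh : A ≃ₜ img A l0 :=
    Continuous.homeoOfEquivCompactToT2 (f := Equiv.ofBijective fA hfA) cA
  let hSh : S ≃ₜ img A l0 :=
    Continuous.homeoOfEquivCompactToT2 (f := Equiv.ofBijective fS hfS) cS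
  let e : A ≃ₜ S := hAh.trans hSh.symm
  have hSc : IsConnected S := by
    rw [isConnected_iff_connectedSpace]
    exact e.surjective.connectedSpace e.continuous
  have hSI : S = Icc (sInf S) (sSup S) := eq_Icc_of_connected_compact hSc hSk
  have hlt : sInf S < sSup S := by
    obtain ⟨z, hz, z', hz', hne⟩ := hn
    have h1 : e ⟨z, hz⟩ ≠ e ⟨z', hz'⟩ := fun h => hne (congrArg Subtype.val (e.injective h))
    by_contra hcon
    push Not at hcon
    apply h1
    apply Subtype.ext
    have h2 : ∀ u : S, u.1 = sInf S := by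
      intro u
      have h3 : u.1 ∈ Icc (sInf S) (sSup S) := hSI ▸ u.2
      exact le_antisymm (h3.2.trans hcon) h3.1
    rw [h2, h2]
  exact ⟨(e.trans (Homeomorph.setCongr hSI)).trans (iccHomeoI _ _ hlt)⟩

end Pool.Agent.DB
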