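import Pool.Agent.DB.D.Map

/-!
# DB-F-Hit: vertices on the walk of an arm

PLAN.  `arm_hits`: for `m < E` and `h ≤ code x E m` (natural numbers, `code ≤ L`): at
`u = m + h / (2 * code)` the height is `code * (1 - |2 (u - m) - 1|) = h` (`arm_exc`), so
`armPt = ev (ray x m h)` (`pl_nat`); `s = u / (E + 1) ∈ [0, 1]`.
`arm_hits_one`: for any `m` there is `m' < d` with `m' ≡ m` (`m % d`), `m' < E` (`d_lt_arm`), `1 ≤ code`
(`code_ge`), `ray_per`.  `arm_hits_last`: `m = E - 1` (`code_last`).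
`hits_edge`: a set containing the whole edge `[x, ray x E 1]` has all these vertices in its image (`f_edge`).
-/

namespace Pool.Agent.DB

open Set

variable {M : Model} {x : M.V}

theorem arm_hits (hx : x ∈ M.B) {E m h : ℕ} (hE : E ∈ M.arms x) (hm : m < E)
    (hh : h ≤ M.code x E m) :
    ∃ s : ℝ, 0 ≤ s ∧ s ≤ 1 ∧ M.armPt x E s = ev (M.ray x m h) := by
  have hc := M.code_ge hx hE hm
  have hL := M.code_le hx hE hm
  have hc0 : (0 : ℝ) < (M.code x E m : ℝ) := by exact_mod_cast (by omega : 0 < M.code x E m)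
  have hhr : (h : ℝ) ≤ (M.code x E m : ℝ) := by exact_mod_cast hh
  have hh0 : (0 : ℝ) ≤ (h : ℝ) := Nat.cast_nonneg _
  have hE0 : (0 : ℝ) < (E : ℝ) + 1 := by positivity
  have hmE : (m : ℝ) + 1 ≤ E := by exact_mod_cast hm
  have hq0 : 0 ≤ (h : ℝ) / (M.code x E m : ℝ) := by positivity
  have hq1 : (h : ℝ) / (M.code x E m : ℝ) ≤ 1 := (div_le_one hc0).mpr hhr
  refine ⟨((m : ℝ) + (h : ℝ) / (M.code x E m : ℝ) / 2) / ((E : ℝ) + 1), by positivity, ?_, ?_⟩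
  · rw [div_le_one hE0]
    linarith
  · rw [M.arm_exc hx hm (by linarith) (by linarith)]
    have h1 : 1 - |2 * ((m : ℝ) + (h : ℝ) / (M.code x E m : ℝ) / 2 - m) - 1| =
        (h : ℝ) / (M.code x E m : ℝ) := by
      rw [abs_of_nonpos (by linarith)]
      ring
    rw [h1, mul_div_cancel₀ _ hc0.ne', pl_nat _ (hh.trans hL)]

theorem hits_one (hx : x ∈ M.B) {E : ℕ} (hE : E ∈ M.arms x) (m : ℕ) {C : Set (M.V → ℝ)}
    (hC : ∀ s : ℝ, 0 ≤ s → s ≤ 1 → (1 - s) • ev x + s • ev (M.ray x E 1) ∈ C) :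
    ev (M.ray x m 1) ∈ M.f x '' C := by
  have hd := M.d_lt_arm hx hE
  have h3 := M.three_le x hx
  have hm : m % M.d x < E := (Nat.mod_lt _ (by omega)).trans hd
  have hc := M.code_ge hx hE hm
  obtain ⟨s, h0, h1, hs⟩ := arm_hits hx hE hm (h := 1) (by omega)
  refine ⟨_, hC s h0 h1, ?_⟩
  rw [M.f_edge hx hE h0 h1, hs, M.ray_per x hx (m % M.d x) m 1 (Nat.mod_modEq _ _)]

theorem hits_last (hx : x ∈ M.B) {E : ℕ} (hE : E ∈ M.arms x) {j : ℕ} (hj : j ≤ M.L)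
    {C : Set (M.V → ℝ)}
    (hC : ∀ s : ℝ, 0 ≤ s → s ≤ 1 → (1 - s) • ev x + s • ev (M.ray x E 1) ∈ C) :
    ev (M.ray x (E - 1) j) ∈ M.f x '' C := by
  have hd := M.d_lt_arm hx hE
  have hc := M.code_last hE (m := E - 1) (by omega)
  obtain ⟨s, h0, h1, hs⟩ := arm_hits hx hE (m := E - 1) (by omega) (h := j) (by omega)
  refine ⟨_, hC s h0 h1, ?_⟩
  rw [M.f_edge hx hE h0 h1, hs]

end Pool.Agent.DB
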