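import Pool.Agent.DB.F.Img
import Pool.Agent.DB.F.Hit
import Pool.Agent.DB.I.OrdA0

/-!
# DB-F-CaseA: late projections without vertices

PLAN.  `arm_inj_interval`: `u = (E+1) s` for the ends: the interval `[u₁, u₂]` contains no natural number
`m ≤ E` (`arm_int`: `armPt = ev x`; `0 < u₁`), and `u₂ < E + 1`.  So `[u₁, u₂] ⊆ (m, m+1)` for `m = ⌊u₁⌋₊ ≤ E`.
`m = E`: `arm_exit`, injective by `pl_injOn` (`ray_inj`).  `m < E`: `arm_exc`; the midpoint
`m + 1/2` is not in `[u₁, u₂]` (there `armPt = pl (ray x m) L code = ev (ray x m code)`: `pl_nat`), so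
`|2(u - m) - 1|` is strictly monotone on `[u₁, u₂]` and `pl_injOn` applies (heights in `[0, L]`: `code_le`).
`case_a`: `img A (l+1)` is compact connected without vertices: `interval_fibre`: all its points are
`(1-σ) ev a + σ ev b` with `0 < s ≤ σ ≤ t < 1` (`sg_mid`).  If `x l ≠ a, b` then `f (x l)` is the identity on it
(`f_off`).  If `x l = a` (or `b`: `sg_swap`, swap the edge): `b = ray a E 1` (`nbr_arm`), `f_edge`,
`img A l = armPt '' [s, t]` has no vertices: `arm_inj_interval`.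
Last part: `interval_fibre` for `img A l0`, `w 0 = a`, `w 1 = b`, `N = 1`, `pl_eq`.
-/

namespace Pool.Agent.DB

open Set

variable {M : Model} {x : ℕ → M.V}

private theorem ray_injOn {y : M.V} (hy : y ∈ M.B) (m : ℕ) :
    InjOn (pl (M.ray y m) M.L) (Icc 0 (M.L : ℝ)) :=
  pl_injOn _ fun i j hi hj h => (M.ray_inj y hy m i m j hi hj h).1

theorem arm_inj_interval {y : M.V} (hy : y ∈ M.B) {E : ℕ} (hE : E ∈ M.arms y) {s t : ℝ}
    (h0 : 0 < s) (h1 : t < 1) (hv : ∀ σ ∈ Icc s t, ∀ v, M.armPt y E σ ≠ ev v) :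
    InjOn (M.armPt y E) (Icc s t) := by
  rcases lt_or_ge t s with hst | hst
  · rw [Icc_eq_empty (not_le.2 hst)]
    exact injOn_empty _
  have hc : (0 : ℝ) < (E : ℝ) + 1 := by positivity
  set c : ℝ := (E : ℝ) + 1 with hcdef
  have hL := M.L_ge hy
  -- no integer point
  have hno : ∀ m : ℕ, m ≤ E → ¬ (c * s ≤ m ∧ (m : ℝ) ≤ c * t) := by
    rintro m hm ⟨ha, hb⟩
    refine hv ((m : ℝ) / c) ⟨?_, ?_⟩ y (M.arm_int hy hm)
    · rw [le_div_iff₀ hc]
      linarith
    · rw [div_le_iff₀ hc]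
      linarith
  have hu1 : 0 < c * s := mul_pos hc h0
  have hu2 : c * t < c := by nlinarith
  have hu12 : c * s ≤ c * t := mul_le_mul_of_nonneg_left hst hc.le
  set m := ⌊c * s⌋₊ with hm
  have hm1 : (m : ℝ) ≤ c * s := Nat.floor_le hu1.le
  have hm2 : c * s < m + 1 := Nat.lt_floor_add_one _
  have hmE : m ≤ E := by
    have h2 : (m : ℝ) < (E : ℝ) + 1 := lt_of_le_of_lt hm1 (lt_of_le_of_lt hu12 hu2)
    have h3 : m < E + 1 := by exact_mod_cast h2
    omega
  have hm1' : (m : ℝ) < c * s := by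
    rcases eq_or_lt_of_le hm1 with h2 | h2
    · exact absurd ⟨h2.symm.le, by rw [h2]; exact hu12⟩ (hno m hmE)
    · exact h2
  have hm3 : c * t < m + 1 := by
    by_contra hcon
    push Not at hcon
    rcases Nat.lt_or_ge m E with h2 | h2
    · apply hno (m + 1) h2
      push_cast
      exact ⟨hm2.le, hcon⟩
    · have h3 : (E : ℝ) ≤ m := by exact_mod_cast h2
      linarith
  have hin : ∀ σ ∈ Icc s t, (m : ℝ) < c * σ ∧ c * σ < m + 1 := by
    intro σ hσ
    have h2 : c * s ≤ c * σ := mul_le_mul_of_nonneg_left hσ.1 hc.le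
    have h3 : c * σ ≤ c * t := mul_le_mul_of_nonneg_left hσ.2 hc.le
    exact ⟨by linarith, by linarith⟩
  have hdiv : ∀ σ : ℝ, c * σ / c = σ := fun σ => by field_simp
  rcases Nat.eq_or_lt_of_le hmE with hmE' | hmE'
  · -- the exit
    have hval : ∀ σ ∈ Icc s t, M.armPt y E σ = pl (M.ray y E) M.L (c * σ - E) := by
      intro σ hσ
      obtain ⟨h2, h3⟩ := hin σ hσ
      rw [hmE'] at h2 h3
      have h4 := M.arm_exit hy (E := E) (u := c * σ) h2.le h3.le
      rw [← hcdef, hdiv] at h4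
      exact h4
    have hmem : ∀ σ ∈ Icc s t, c * σ - E ∈ Icc (0 : ℝ) M.L := by
      intro σ hσ
      obtain ⟨h2, h3⟩ := hin σ hσ
      rw [hmE'] at h2 h3
      have h5 : (39 : ℝ) ≤ M.L := by exact_mod_cast hL
      exact ⟨by linarith, by linarith⟩
    intro σ hσ σ' hσ' he
    rw [hval σ hσ, hval σ' hσ'] at he
    have h6 := ray_injOn hy E (hmem σ hσ) (hmem σ' hσ') he
    have h7 : c * σ = c * σ' := by linarith
    exact mul_left_cancel₀ hc.ne' h7
  · -- an excursion
    have hcode := M.code_le hy hE hmE'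
    have hcode3 := M.code_ge hy hE hmE'
    set C : ℝ := (M.code y E m : ℝ) with hC
    have hCpos : 0 < C := by
      have : (3 : ℝ) ≤ C := by rw [hC]; exact_mod_cast hcode3
      linarith
    have hCL : C ≤ M.L := by rw [hC]; exact_mod_cast hcode
    have hval : ∀ σ ∈ Icc s t, M.armPt y E σ =
        pl (M.ray y m) M.L (C * (1 - |2 * (c * σ - m) - 1|)) := by
      intro σ hσ
      obtain ⟨h2, h3⟩ := hin σ hσ
      have h4 := M.arm_exc hy (E := E) hmE' (u := c * σ) h2.le h3.le
      rw [← hcdef, hdiv] at h4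
      exact h4
    have hmem : ∀ σ ∈ Icc s t, C * (1 - |2 * (c * σ - m) - 1|) ∈ Icc (0 : ℝ) M.L := by
      intro σ hσ
      obtain ⟨h2, h3⟩ := hin σ hσ
      have h5 : |2 * (c * σ - m) - 1| ≤ 1 := by
        rw [abs_le]
        constructor <;> linarith
      have h6 : 0 ≤ |2 * (c * σ - m) - 1| := abs_nonneg _
      refine ⟨mul_nonneg hCpos.le (by linarith), ?_⟩
      have h7 : C * (1 - |2 * (c * σ - m) - 1|) ≤ C * 1 :=
        mul_le_mul_of_nonneg_left (by linarith) hCpos.le
      linarith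
    have hmid : ¬ (c * s ≤ m + 1 / 2 ∧ (m : ℝ) + 1 / 2 ≤ c * t) := by
      rintro ⟨ha, hb⟩
      have hσ : ((m : ℝ) + 1 / 2) / c ∈ Icc s t := by
        refine ⟨?_, ?_⟩
        · rw [le_div_iff₀ hc]
          linarith
        · rw [div_le_iff₀ hc]
          linarith
      apply hv _ hσ (M.ray y m (M.code y E m))
      rw [hval _ hσ]
      have h8 : c * (((m : ℝ) + 1 / 2) / c) = m + 1 / 2 := by field_simp
      rw [h8]
      have h9 : C * (1 - |2 * ((m : ℝ) + 1 / 2 - m) - 1|) = (M.code y E m : ℝ) := by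
        rw [show 2 * ((m : ℝ) + 1 / 2 - m) - 1 = 0 by ring, abs_zero, hC]
        ring
      rw [h9, pl_nat _ hcode]
    have hside : (∀ σ ∈ Icc s t, c * σ < m + 1 / 2) ∨ (∀ σ ∈ Icc s t, (m : ℝ) + 1 / 2 < c * σ) := by
      rcases lt_or_ge (c * t) (m + 1 / 2) with h2 | h2
      · left
        intro σ hσ
        exact lt_of_le_of_lt (mul_le_mul_of_nonneg_left hσ.2 hc.le) h2
      · right
        intro σ hσ
        have h3 : (m : ℝ) + 1 / 2 < c * s := by
          by_contra hcon
          push Not at hcon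
          exact hmid ⟨hcon, h2⟩
        exact lt_of_lt_of_le h3 (mul_le_mul_of_nonneg_left hσ.1 hc.le)
    intro σ hσ σ' hσ' he
    rw [hval σ hσ, hval σ' hσ'] at he
    have h6 := ray_injOn hy m (hmem σ hσ) (hmem σ' hσ') he
    have h7 := mul_left_cancel₀ hCpos.ne' h6
    have h8 : |2 * (c * σ - m) - 1| = |2 * (c * σ' - m) - 1| := by linarith
    have h9 : c * σ = c * σ' := by
      rcases hside with h2 | h2
      · have ha := h2 σ hσ
        have hb := h2 σ' hσ'
        rw [abs_of_nonpos (by linarith), abs_of_nonpos (by linarith)] at h8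
        linarith
      · have ha := h2 σ hσ
        have hb := h2 σ' hσ'
        rw [abs_of_nonneg (by linarith), abs_of_nonneg (by linarith)] at h8
        linarith
    exact mul_left_cancel₀ hc.ne' h9

private theorem inj_at {y : M.V} (hy : y ∈ M.B) {b : M.V} (hab : M.G.Adj y b)
    {F : Set (M.V → ℝ)} {s t : ℝ} (h0 : 0 < s) (h1 : t < 1)
    (hF : ∀ p, p ∈ F ↔ p ∈ real M.G ∧ s ≤ sg M.G y b p ∧ sg M.G y b p ≤ t)
    (hv : ∀ v, ev v ∉ M.f y '' F) : InjOn (M.f y) F := by
  obtain ⟨E, hE, rfl⟩ := M.nbr_arm hy hab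
  have hform : ∀ p ∈ F, p = (1 - sg M.G y (M.ray y E 1) p) • ev y +
      sg M.G y (M.ray y E 1) p • ev (M.ray y E 1) := by
    intro p hp
    obtain ⟨h2, h3, h4⟩ := (hF p).1 hp
    exact sg_mid M.tree hab h2 (lt_of_lt_of_le h0 h3) (lt_of_le_of_lt h4 h1)
  have hfp : ∀ p ∈ F, M.f y p = M.armPt y E (sg M.G y (M.ray y E 1) p) := by
    intro p hp
    obtain ⟨h2, h3, h4⟩ := (hF p).1 hp
    conv_lhs => rw [hform p hp]
    exact M.f_edge hy hE (h0.le.trans h3) (h4.trans h1.le)
  have hinj := arm_inj_interval hy hE h0 h1 (by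
    intro σ hσ v he
    have hpF : (1 - σ) • ev y + σ • ev (M.ray y E 1) ∈ F := by
      rw [hF]
      refine ⟨edge_mem hab (h0.le.trans hσ.1) (hσ.2.trans h1.le), ?_⟩
      rw [sg_edge M.tree hab]
      exact ⟨hσ.1, hσ.2⟩
    apply hv v
    refine ⟨_, hpF, ?_⟩
    rw [hfp _ hpF, sg_edge M.tree hab]
    exact he)
  intro p hp q hq he
  rw [hfp p hp, hfp q hq] at he
  have h5 := hinj (((hF p).1 hp).2) (((hF q).1 hq).2) he
  rw [hform p hp, hform q hq, h5]

theorem case_a (hx : Good M x) {A : Set (ℕ → M.V → ℝ)} (hA : A ⊆ M.Lim x)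
    (hAk : IsCompact A) (hAc : IsConnected A) {l0 : ℕ}
    (h : ∀ l, l0 ≤ l → ∀ v, ev v ∉ img A l) :
    (∀ l, l0 ≤ l → InjOn (M.f (x l)) (img A (l + 1))) ∧
      ∃ (w : ℕ → M.V) (N : ℕ), (∀ i j, i ≤ N → j ≤ N → w i = w j → i = j) ∧
        img A l0 ⊆ pl w N '' Icc 0 (N : ℝ) := by
  constructor
  · intro l hl
    have hy : x l ∈ M.B := hx.1 l
    obtain ⟨a, b, hab, s, t, hs0, -, ht1, hF⟩ := interval_fibre M.tree (img_subset hA (l + 1))
      (img_connected hAc (l + 1)) (img_compact hAk (l + 1)) (h (l + 1) (by omega))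
    have hvim : ∀ v, ev v ∉ M.f (x l) '' img A (l + 1) := by
      intro v
      rw [← img_step hA l]
      exact h l hl v
    by_cases ha : x l = a
    · have hab' : M.G.Adj (x l) b := by rw [ha]; exact hab
      exact inj_at hy hab' hs0 ht1 (by rw [ha]; exact hF) hvim
    · by_cases hb : x l = b
      · have hab' : M.G.Adj (x l) a := by rw [hb]; exact hab.symm
        have hF' : ∀ p, p ∈ img A (l + 1) ↔ p ∈ real M.G ∧ 1 - t ≤ sg M.G (x l) a p ∧
            sg M.G (x l) a p ≤ 1 - s := by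
          intro p
          rw [hb, hF]
          constructor
          · rintro ⟨h2, h3, h4⟩
            rw [sg_swap M.tree hab h2]
            exact ⟨h2, by linarith, by linarith⟩
          · rintro ⟨h2, h3, h4⟩
            rw [sg_swap M.tree hab h2] at h3 h4
            exact ⟨h2, by linarith, by linarith⟩
        exact inj_at hy hab' (by linarith) (by linarith) hF' hvim
      · have hid : ∀ p ∈ img A (l + 1), M.f (x l) p = p := by
          intro p hp
          obtain ⟨h2, h3, h4⟩ := (hF p).1 hp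
          apply M.f_off
          rw [sg_mid M.tree hab h2 (lt_of_lt_of_le hs0 h3) (lt_of_le_of_lt h4 ht1)]
          rw [Pi.add_apply, Pi.smul_apply, Pi.smul_apply, ev_apply, ev_apply, if_neg ha,
            if_neg hb]
          simp
        intro p hp q hq he
        rw [hid p hp, hid q hq] at he
        exact he
  · obtain ⟨a, b, hab, s, t, hs0, -, ht1, hF⟩ := interval_fibre M.tree (img_subset hA l0)
      (img_connected hAc l0) (img_compact hAk l0) (h l0 le_rfl)
    refine ⟨fun i => if i = 0 then a else b, 1, ?_, ?_⟩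
    · intro i j hi hj hij
      have hne : a ≠ b := hab.ne
      interval_cases i <;> interval_cases j
      · rfl
      · exact absurd hij (by simpa using hne)
      · exact absurd hij (by simpa using hne.symm)
      · rfl
    · intro p hp
      obtain ⟨h2, h3, h4⟩ := (hF p).1 hp
      have h5 := sg_mid M.tree hab h2 (lt_of_lt_of_le hs0 h3) (lt_of_le_of_lt h4 ht1)
      refine ⟨sg M.G a b p, ⟨by linarith, by push_cast; linarith⟩, ?_⟩
      have h6 := pl_eq (fun i : ℕ => if i = 0 then a else b) 1 0 (by omega) (sg M.G a b p)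
        (by linarith) (by linarith)
      rw [Nat.cast_zero, zero_add] at h6
      rw [h6]
      simpa using h5.symm

end Pool.Agent.DB
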