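import Pool.Agent.DB.F.Img
import Pool.Agent.DB.F.Hit

/-!
# DB-F-CaseB: late projections whose only vertex is the branch vertex `y`

PLAN.  (1) `star_of_only`: a connected `C ⊆ real G` with `ev y ∈ C` and no neighbour of `y` in `C`, `C` closed, lies
in the open star of `y`: `p ∈ C`, `p y = 0`: `exists_dir`: `0 < sg G y u p` for a neighbour `u` of `y`; it is
`1` (otherwise `sg_mid` gives `p y > 0`); `sg_ivt`: the points of the edge `y u` with parameter in `(0,1)` are in
`C`, `C` is closed, so `ev u ∈ C`.  So every `p ∈ img A l`, `l ≥ l0`, is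
`(1-s) ev y + s ev (ray y E 1)`, `E ∈ arms y`, `0 ≤ s < 1` (`star_cases`).
(2) `x l ≠ y`: `p (x l) = 0` for all `p ∈ img A (l+1)`: two branch vertices are not adjacent: `x l = ray y E 1` would
be a vertex with at most two neighbours (`ray_int`, `L ≥ 39`, `j = 1`) but `x l ∈ B` has at least three
(`nbr`/`ray_adj`, `ray_inj`).  So `f (x l) = id` on `img A (l+1)` (`f_off`), `img A l = img A (l+1)`.
(3) `x l = y`, `p = (1-s) ev y + s ev (ray y E 1) ∈ img A (l+1)`, `r = code y E 0 ≥ 3`: the segment `[ev y, p]` is in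
`img A (l+1)` (`sg_ivt`), its image `armPt y E '' [0, s]` is in `img A l` (`f_edge`) and does not contain
`ev (ray y 0 1)` (`h1`: it is not `y`), so `2 r (E+1) s < 1`: at `σ = 1/(2 r (E+1))` the walk is at height one
of `ray y 0` (`arm_exc` with `m = 0`, `pl_nat`).  So `f y p = pl (ray y 0) L (2 r (E+1) s)`, on the edge
`y, ray y 0 1` (`pl_eq` with `j = 0`), and `< 1`.
(4) So `img A l` is in the half open edge `E₀ = [y, ray y 0 1)` if `x l = y`, `l ≥ l0`; for any `l ≥ l0` take the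
first `l' ≥ l` with `x l' = y` (`hx.2`): `img A l = img A l'` by (2).
(5) Injectivity for `x l = y`: all points of `img A (l+1)` are on the same edge (by (4)), i.e. one arm `E`, and
`s ↦ pl (ray y 0) L (2 r (E+1) s)` is injective (`pl_injOn`).
Path: `w 0 = y`, `w 1 = ray y 0 1`, `N = 1`.
-/

namespace Pool.Agent.DB

open Set

variable {M : Model} {x : ℕ → M.V}

theorem star_of_only {C : Set (M.V → ℝ)} (hC : C ⊆ real M.G) (hcl : IsClosed C)
    (hc : IsPreconnected C) {y : M.V} (hy : ev y ∈ C) (h : ∀ u, M.G.Adj y u → ev u ∉ C)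
    {p : M.V → ℝ} (hp : p ∈ C) : p y ≠ 0 := by
  intro h0
  have hne : p ≠ ev y := by
    rintro rfl
    rw [ev_apply, if_pos rfl] at h0
    exact one_ne_zero h0
  obtain ⟨u, hu, hpos⟩ := exists_dir M.tree (hC hp) hne
  have huy : u ≠ y := hu.ne'
  have h1 : sg M.G y u p = 1 := by
    by_contra h2
    have h3 : sg M.G y u p < 1 := lt_of_le_of_ne (sg_le_one y u (hC hp)) h2
    have h4 := sg_mid M.tree hu (hC hp) hpos h3
    have h5 := congrFun h4 y
    rw [h0] at h5
    simp only [Pi.add_apply, Pi.smul_apply, ev_apply, smul_eq_mul, if_true, if_neg huy.symm] at h5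
    linarith
  have h6 : sg M.G y u (ev y) = 0 := sg_ev_not (side_left M.tree hu)
  have hcont : Continuous (fun θ : ℝ => (1 - θ) • ev y + θ • (ev u : M.V → ℝ)) :=
    ((continuous_const.sub continuous_id).smul continuous_const).add
      (continuous_id.smul continuous_const)
  have hS : IsClosed ((fun θ : ℝ => (1 - θ) • ev y + θ • (ev u : M.V → ℝ)) ⁻¹' C) :=
    hcl.preimage hcont
  have hsub : Ioo (0 : ℝ) 1 ⊆ (fun θ : ℝ => (1 - θ) • ev y + θ • (ev u : M.V → ℝ)) ⁻¹' C := by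
    intro θ hθ
    exact sg_ivt M.tree hu hC hc hy hp hθ.1 hθ.2 (by rw [h6]; exact hθ.1.le)
      (by rw [h1]; exact hθ.2.le)
  have h7 := closure_minimal hsub hS
  rw [closure_Ioo (by norm_num)] at h7
  have h8 : (1 : ℝ) ∈ (fun θ : ℝ => (1 - θ) • ev y + θ • (ev u : M.V → ℝ)) ⁻¹' C :=
    h7 ⟨by norm_num, le_refl _⟩
  have h9 : ((1 - (1 : ℝ)) • ev y + (1 : ℝ) • (ev u : M.V → ℝ)) ∈ C := h8
  rw [sub_self, zero_smul, zero_add, one_smul] at h9
  exact h u hu h9

theorem branch_not_adj {y z : M.V} (hy : y ∈ M.B) (hz : z ∈ M.B) : ¬ M.G.Adj y z := by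
  intro hadj
  obtain ⟨m, hm, hzm⟩ := M.nbr y hy z hadj
  have hL := M.L_ge hy
  have hint : ∀ v, M.G.Adj z v → v = M.ray y m 0 ∨ v = M.ray y m 2 := by
    intro v hv
    rw [hzm] at hv
    exact M.ray_int y hy m 1 (by norm_num) (by omega) v hv
  have h3 := M.three_le z hz
  have hdist : ∀ i j, i < 3 → j < 3 → M.ray z i 1 = M.ray z j 1 → i = j := by
    intro i j hi hj he
    rcases (M.ray_inj z hz i 1 j 1 (by omega) (by omega) he).2 with h | h
    · omega
    · have h4 : i % M.d z = j % M.d z := h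
      rw [Nat.mod_eq_of_lt (by omega), Nat.mod_eq_of_lt (by omega)] at h4
      exact h4
  have h0 := hint _ (M.arm_adj hz 0)
  have h1 := hint _ (M.arm_adj hz 1)
  have h2 := hint _ (M.arm_adj hz 2)
  have e01 : M.ray z 0 1 ≠ M.ray z 1 1 := fun h => by
    have := hdist 0 1 (by norm_num) (by norm_num) h
    omega
  have e02 : M.ray z 0 1 ≠ M.ray z 2 1 := fun h => by
    have := hdist 0 2 (by norm_num) (by norm_num) h
    omega
  have e12 : M.ray z 1 1 ≠ M.ray z 2 1 := fun h => by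
    have := hdist 1 2 (by norm_num) (by norm_num) h
    omega
  rcases h0 with h0 | h0 <;> rcases h1 with h1 | h1 <;> rcases h2 with h2 | h2 <;>
    first
      | exact e01 (h0.trans h1.symm)
      | exact e02 (h0.trans h2.symm)
      | exact e12 (h1.trans h2.symm)

private theorem cb_arm_pos {y : M.V} {E : ℕ} (hE : E ∈ M.arms y) : 0 < E := by
  unfold Model.arms at hE
  rw [Finset.mem_Icc] at hE
  omega

/-- the walk of the arm `E` before the first vertex -/
private theorem cb_walk {y : M.V} (hy : y ∈ M.B) {E : ℕ} (hE : E ∈ M.arms y) {s : ℝ}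
    (h0 : 0 ≤ s) (h1 : 2 * (M.code y E 0 : ℝ) * ((E : ℝ) + 1) * s ≤ 1) :
    M.f y ((1 - s) • ev y + s • ev (M.ray y E 1)) =
      (1 - 2 * (M.code y E 0 : ℝ) * ((E : ℝ) + 1) * s) • ev y +
        (2 * (M.code y E 0 : ℝ) * ((E : ℝ) + 1) * s) • ev (M.ray y 0 1) := by
  have hE0 := cb_arm_pos hE
  have hr : (3 : ℝ) ≤ (M.code y E 0 : ℝ) := by exact_mod_cast M.code_ge hy hE hE0
  have hE1 : (0 : ℝ) < (E : ℝ) + 1 := by positivity
  have hL := M.L_ge hy
  have hu0 : 0 ≤ ((E : ℝ) + 1) * s := by positivity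
  have hu1 : ((E : ℝ) + 1) * s ≤ 1 / 2 := by nlinarith
  have hs1 : s ≤ 1 := by
    have : (1 : ℝ) ≤ (E : ℝ) + 1 := by linarith [(Nat.cast_nonneg E : (0 : ℝ) ≤ (E : ℝ))]
    nlinarith
  rw [M.f_edge hy hE h0 hs1]
  have hs : s = (((E : ℝ) + 1) * s) / ((E : ℝ) + 1) := by field_simp
  rw [hs, M.arm_exc hy hE0 (by push_cast; exact hu0) (by push_cast; linarith), ← hs]
  have habs : |2 * (((E : ℝ) + 1) * s - ((0 : ℕ) : ℝ)) - 1| = 1 - 2 * (((E : ℝ) + 1) * s) := by
    rw [abs_of_nonpos (by push_cast; linarith)]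
    push_cast
    ring
  rw [habs]
  have hh : (M.code y E 0 : ℝ) * (1 - (1 - 2 * (((E : ℝ) + 1) * s))) =
      ((0 : ℕ) : ℝ) + 2 * (M.code y E 0 : ℝ) * ((E : ℝ) + 1) * s := by
    push_cast
    ring
  rw [hh, pl_eq (M.ray y 0) M.L 0 (by omega) _ (by positivity) h1, M.ray_zero y hy]

theorem case_b (hx : Good M x) {A : Set (ℕ → M.V → ℝ)} (hA : A ⊆ M.Lim x)
    (hAk : IsCompact A) (hAc : IsConnected A) {y : M.V} (hy : y ∈ M.B) {l0 : ℕ}
    (h : ∀ l, ev y ∈ img A l) (h1 : ∀ l, l0 ≤ l → ∀ v, ev v ∈ img A l → v = y) :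
    (∀ l, l0 ≤ l → InjOn (M.f (x l)) (img A (l + 1))) ∧
      ∃ (w : ℕ → M.V) (N : ℕ), (∀ i j, i ≤ N → j ≤ N → w i = w j → i = j) ∧
        img A l0 ⊆ pl w N '' Icc 0 (N : ℝ) := by
  have hL := M.L_ge hy
  -- every point is in the open star of `y`
  have star : ∀ l, l0 ≤ l → ∀ p ∈ img A l, ∃ E ∈ M.arms y, ∃ s : ℝ, 0 ≤ s ∧ s < 1 ∧
      p = (1 - s) • ev y + s • ev (M.ray y E 1) := by
    intro l hl p hp
    have hp0 : p y ≠ 0 := by
      refine star_of_only (img_subset hA l) (img_compact hAk l).isClosed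
        (img_connected hAc l).isPreconnected (h l) ?_ hp
      intro u hu hmem
      exact hu.ne (h1 l hl u hmem).symm
    rcases M.star_cases hy (img_subset hA l hp) with h2 | h2
    · exact absurd h2 hp0
    · exact h2
  -- the other twist maps do nothing
  have off : ∀ l, l0 ≤ l → x l ≠ y → ∀ p ∈ img A (l + 1), M.f (x l) p = p := by
    intro l hl hne p hp
    apply M.f_off
    obtain ⟨E, hE, s, hs0, hs1, rfl⟩ := star (l + 1) (by omega) p hp
    have hne2 : x l ≠ M.ray y E 1 := by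
      intro he
      have := M.arm_adj hy E
      rw [← he] at this
      exact branch_not_adj hy (hx.1 l) this
    simp only [Pi.add_apply, Pi.smul_apply, ev_apply, smul_eq_mul, if_neg hne, if_neg hne2]
    ring
  have offimg : ∀ l, l0 ≤ l → x l ≠ y → img A l = img A (l + 1) := by
    intro l hl hne
    rw [img_step hA l]
    ext p
    constructor
    · rintro ⟨q, hq, rfl⟩
      rw [off l hl hne q hq]
      exact hq
    · intro hp
      exact ⟨p, hp, off l hl hne p hp⟩
  -- the twist map at `y`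
  have small : ∀ l, l0 ≤ l → x l = y → ∀ E ∈ M.arms y, ∀ s : ℝ, 0 ≤ s → s < 1 →
      (1 - s) • ev y + s • ev (M.ray y E 1) ∈ img A (l + 1) →
      2 * (M.code y E 0 : ℝ) * ((E : ℝ) + 1) * s < 1 := by
    intro l hl hxl E hE s hs0 hs1 hp
    by_contra hcon
    push Not at hcon
    have hE0 := cb_arm_pos hE
    have hr : (3 : ℝ) ≤ (M.code y E 0 : ℝ) := by exact_mod_cast M.code_ge hy hE hE0
    have hE1 : (1 : ℝ) ≤ (E : ℝ) + 1 := by linarith [(Nat.cast_nonneg E : (0 : ℝ) ≤ (E : ℝ))]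
    set c : ℝ := 2 * (M.code y E 0 : ℝ) * ((E : ℝ) + 1) with hc
    have hc1 : 1 < c := by
      rw [hc]
      nlinarith
    have hc0 : 0 < c := by linarith
    have hadj := M.arm_adj hy E
    have hmem : (1 - 1 / c) • ev y + (1 / c) • ev (M.ray y E 1) ∈ img A (l + 1) := by
      refine sg_ivt M.tree hadj (img_subset hA (l + 1)) (img_connected hAc (l + 1)).isPreconnected
        (h (l + 1)) hp (by positivity) ?_ ?_ ?_
      · rw [div_lt_one hc0]
        exact hc1
      · rw [sg_ev_not (side_left M.tree hadj)]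
        positivity
      · rw [sg_edge M.tree hadj, div_le_iff₀ hc0]
        linarith
    have h2 : M.f y ((1 - 1 / c) • ev y + (1 / c) • ev (M.ray y E 1)) = ev (M.ray y 0 1) := by
      have h3 : 2 * (M.code y E 0 : ℝ) * ((E : ℝ) + 1) * (1 / c) = 1 := by
        rw [← hc]
        field_simp
      rw [cb_walk hy hE (by positivity) h3.le, h3]
      rw [sub_self, zero_smul, zero_add, one_smul]
    have h4 : ev (M.ray y 0 1) ∈ img A l := by
      rw [img_step hA l, hxl]
      exact ⟨_, hmem, h2⟩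
    have h5 := h1 l hl _ h4
    exact (M.arm_adj hy 0).ne h5.symm
  have first : ∀ l, l0 ≤ l → x l = y → ∀ p ∈ img A l, ∃ τ : ℝ, 0 ≤ τ ∧ τ < 1 ∧
      p = (1 - τ) • ev y + τ • ev (M.ray y 0 1) := by
    intro l hl hxl p hp
    rw [img_step hA l, hxl] at hp
    obtain ⟨q, hq, rfl⟩ := hp
    obtain ⟨E, hE, s, hs0, hs1, rfl⟩ := star (l + 1) (by omega) q hq
    have h2 := small l hl hxl E hE s hs0 hs1 hq
    refine ⟨2 * (M.code y E 0 : ℝ) * ((E : ℝ) + 1) * s, by positivity, h2, ?_⟩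
    exact cb_walk hy hE hs0 h2.le
  have all : ∀ n l, l0 ≤ l → x (l + n) = y → ∀ p ∈ img A l, ∃ τ : ℝ, 0 ≤ τ ∧ τ < 1 ∧
      p = (1 - τ) • ev y + τ • ev (M.ray y 0 1) := by
    intro n
    induction n with
    | zero =>
      intro l hl hxl
      exact first l hl hxl
    | succ n ih =>
      intro l hl hxl p hp
      by_cases hxy : x l = y
      · exact first l hl hxy p hp
      · rw [offimg l hl hxy] at hp
        exact ih (l + 1) (by omega) (by rw [← hxl]; congr 1; omega) p hp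
  have edge : ∀ l, l0 ≤ l → ∀ p ∈ img A l, ∃ τ : ℝ, 0 ≤ τ ∧ τ < 1 ∧
      p = (1 - τ) • ev y + τ • ev (M.ray y 0 1) := by
    intro l hl p hp
    obtain ⟨k, hk, hxk⟩ := hx.2 y hy l
    refine all (k - l) l hl ?_ p hp
    rw [← hxk]
    congr 1
    omega
  refine ⟨?_, M.ray y 0, 1, ?_, ?_⟩
  · intro l hl p hp q hq hpq
    by_cases hxy : x l = y
    · obtain ⟨E, hE, hEm⟩ := M.exists_arm hy 0
      have hray : M.ray y E 1 = M.ray y 0 1 := M.ray_per y hy E 0 1 hEm
      obtain ⟨a, ha0, ha1, rfl⟩ := edge (l + 1) (by omega) p hp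
      obtain ⟨b, hb0, hb1, rfl⟩ := edge (l + 1) (by omega) q hq
      have hneq : M.ray y 0 1 ≠ y := (M.arm_adj hy 0).ne'
      rw [← hray] at hp hq hpq
      have ha2 := small l hl hxy E hE a ha0 ha1 hp
      have hb2 := small l hl hxy E hE b hb0 hb1 hq
      rw [hxy, cb_walk hy hE ha0 ha2.le, cb_walk hy hE hb0 hb2.le] at hpq
      have h3 := congrFun hpq (M.ray y 0 1)
      simp only [Pi.add_apply, Pi.smul_apply, ev_apply, smul_eq_mul, if_true, if_neg hneq] at h3
      have hr : (3 : ℝ) ≤ (M.code y E 0 : ℝ) := by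
        exact_mod_cast M.code_ge hy hE (cb_arm_pos hE)
      have hc0 : 0 < 2 * (M.code y E 0 : ℝ) * ((E : ℝ) + 1) := by positivity
      have h4 : a = b := by
        have h5 : 2 * (M.code y E 0 : ℝ) * ((E : ℝ) + 1) * a =
            2 * (M.code y E 0 : ℝ) * ((E : ℝ) + 1) * b := by linarith
        exact mul_left_cancel₀ hc0.ne' h5
      rw [h4]
    · rw [off l hl hxy p hp, off l hl hxy q hq] at hpq
      exact hpq
  · intro i j hi hj he
    exact (M.ray_inj y hy 0 i 0 j (by omega) (by omega) he).1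
  · intro p hp
    obtain ⟨τ, h2, h3, rfl⟩ := edge l0 le_rfl p hp
    refine ⟨((0 : ℕ) : ℝ) + τ, ⟨by push_cast; linarith, by push_cast; linarith⟩, ?_⟩
    rw [pl_eq (M.ray y 0) 1 0 (by norm_num) τ h2 h3.le, M.ray_zero y hy]

end Pool.Agent.DB
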