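import Pool.Agent.DB.Top.Sep
import Pool.Agent.DB.D.Pl
import Pool.Agent.DB.D.Code

/-!
# DB-F-RayS: the part of the tree between the two ends of a ray

PLAN.  Write `r j = ray z m j`.  `side_ray`: `side G z (r 1) (r j)` for `1 ≤ j ≤ L` (walk along the ray, the edges
`r i, r (i+1)`, `i ≥ 1`, are not the edge `z, r 1`: `ray_inj`; `side_adj`).
`side_ray'`: `side G (r L) (r (L-1)) (r j)` for `0 ≤ j ≤ L - 1`, the same.
`between`: if `side G z (r 1) v` and (`r L ∈ B → side G (r L) (r (L-1)) v`) then `v = r j`, `1 ≤ j ≤ L` (and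
`j < L` if `r L ∈ B`): walk from `r 1` to `v` inside the side (`side_walk`); induction: the current vertex is
some `r j`, `1 ≤ j ≤ L`, or (only if `r L ∈ B`) a vertex not on the side of `r (L-1)` seen from `r L`: the
neighbours of `r j`, `0 < j < L`, are `r (j-1)`, `r (j+1)` (`ray_int`), where `r 0 = z` is not on the side of `r 1`
(`side_left`); from `r L ∈ B` one goes to `r (L-1)` or to a neighbour `u ≠ r (L-1)`, not on the side of `r (L-1)`
(`side_cross`/`side_unique`), and the set of vertices `≠` on that side is only left through the edge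
`r L, r (L-1)` (`side_cross`); from a leaf `r L` only back to `r (L-1)` (`ray_end`).
`ray_segment`: `p ∈ real G` with `0 < sg G z (r 1) p` and (`r L ∈ B → 0 < sg G (r L) (r (L-1)) p`): `p` is a vertex
or an interior point of an edge `ab` (`real_cases`).  Vertex `v`: both sides hold, `between`, `pl_nat`.  Interior
point of `ab`: if `s(a,b) = s(z, r 1)`: `p = pl r L s` (`pl_eq`, `j = 0`); if `s(a,b) = s(r L, r (L-1))`: `pl_eq`
with `j = L - 1`; otherwise `sg` is constant on the edge `ab` (`sg_other`), both ends satisfy `between`, so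
`a = r i`, `b = r j`, adjacent, so `|i - j| = 1` (`ray_int`, `ray_inj`; or the end), `pl_eq`.
-/

namespace Pool.Agent.DB

open Set

variable {M : Model}

private theorem rs_inj {z : M.V} (hz : z ∈ M.B) (m : ℕ) {i j : ℕ} (hi : i ≤ M.L) (hj : j ≤ M.L)
    (h : M.ray z m i = M.ray z m j) : i = j :=
  (M.ray_inj z hz m i m j hi hj h).1

theorem side_ray {z : M.V} (hz : z ∈ M.B) (m : ℕ) {j : ℕ} (h0 : 1 ≤ j) (h1 : j ≤ M.L) :
    side M.G z (M.ray z m 1) (M.ray z m j) := by
  induction j, h0 using Nat.le_induction with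
  | base => exact side_right _ _ _
  | succ j hj ih =>
    refine (side_adj (M.ray_adj z hz m j (by omega)) ?_).1 (ih (by omega))
    intro he
    rcases Sym2.eq_iff.1 he with ⟨h2, _⟩ | ⟨_, h2⟩
    · have h3 : M.ray z m j = M.ray z m 0 := h2.trans (M.ray_zero z hz m).symm
      have := rs_inj hz m (by omega) (by omega) h3
      omega
    · have h3 : M.ray z m (j + 1) = M.ray z m 0 := h2.trans (M.ray_zero z hz m).symm
      have := rs_inj hz m (by omega) (by omega) h3
      omega

theorem side_ray' {z : M.V} (hz : z ∈ M.B) (m : ℕ) {j : ℕ} (h1 : j < M.L) :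
    side M.G (M.ray z m M.L) (M.ray z m (M.L - 1)) (M.ray z m j) := by
  have key : ∀ i, i + 1 ≤ M.L →
      side M.G (M.ray z m M.L) (M.ray z m (M.L - 1)) (M.ray z m (M.L - 1 - i)) := by
    intro i
    induction i with
    | zero => intro _; exact side_right _ _ _
    | succ i ih =>
      intro hi
      have hadj := M.ray_adj z hz m (M.L - 1 - (i + 1)) (by omega)
      have he1 : M.L - 1 - (i + 1) + 1 = M.L - 1 - i := by omega
      rw [he1] at hadj
      refine (side_adj hadj ?_).2 (ih (by omega))
      intro he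
      rcases Sym2.eq_iff.1 he with ⟨h2, _⟩ | ⟨_, h2⟩
      · have := rs_inj hz m (by omega) (by omega) h2
        omega
      · have := rs_inj hz m (by omega) (by omega) h2
        omega
  have := key (M.L - 1 - j) (by omega)
  have he : M.L - 1 - (M.L - 1 - j) = j := by omega
  rw [he] at this
  exact this

private theorem rs_adj {z : M.V} (hz : z ∈ M.B) (m : ℕ) : M.G.Adj z (M.ray z m 1) := by
  have hL := M.L_ge hz
  have := M.ray_adj z hz m 0 (by omega)
  rw [M.ray_zero z hz m] at this
  exact this

private theorem rs_adj' {z : M.V} (hz : z ∈ M.B) (m : ℕ) :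
    M.G.Adj (M.ray z m M.L) (M.ray z m (M.L - 1)) := by
  have hL := M.L_ge hz
  have := M.ray_adj z hz m (M.L - 1) (by omega)
  have he : M.L - 1 + 1 = M.L := by omega
  rw [he] at this
  exact this.symm

theorem between {z : M.V} (hz : z ∈ M.B) (m : ℕ) {v : M.V} (h : side M.G z (M.ray z m 1) v)
    (h' : M.ray z m M.L ∈ M.B → side M.G (M.ray z m M.L) (M.ray z m (M.L - 1)) v) :
    ∃ j, 1 ≤ j ∧ j ≤ M.L ∧ v = M.ray z m j := by
  have hL := M.L_ge hz
  have hw := side_walk M.tree (rs_adj hz m) h
  have key : (∃ j, 1 ≤ j ∧ j ≤ M.L ∧ v = M.ray z m j) ∨ (M.ray z m M.L ∈ M.B ∧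
      ¬ side M.G (M.ray z m M.L) (M.ray z m (M.L - 1)) v) := by
    clear h h'
    induction hw with
    | refl => exact Or.inl ⟨1, le_rfl, by omega, rfl⟩
    | @tail x y _ hxy ih =>
      obtain ⟨hadj, _, hy⟩ := hxy
      rcases ih with ⟨j, hj1, hj2, rfl⟩ | ⟨hB, hx⟩
      · rcases lt_or_eq_of_le hj2 with hlt | heq
        · rcases M.ray_int z hz m j (by omega) hlt y hadj with rfl | rfl
          · by_cases hj : j = 1
            · exfalso
              subst hj
              have h0 : M.ray z m (1 - 1) = z := M.ray_zero z hz m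
              rw [h0] at hy
              exact side_left M.tree (rs_adj hz m) hy
            · exact Or.inl ⟨j - 1, by omega, by omega, rfl⟩
          · exact Or.inl ⟨j + 1, by omega, by omega, rfl⟩
        · subst heq
          by_cases hyL : y = M.ray z m (M.L - 1)
          · exact Or.inl ⟨M.L - 1, by omega, by omega, hyL⟩
          · rcases M.ray_end z hz m with ⟨hB, _⟩ | hleaf
            · right
              refine ⟨hB, fun hs => ?_⟩
              exact hyL (side_cross M.tree (rs_adj' hz m) hadj
                (side_left M.tree (rs_adj' hz m)) hs).2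
            · exact absurd (hleaf y hadj) hyL
      · by_cases hs : side M.G (M.ray z m M.L) (M.ray z m (M.L - 1)) y
        · exact Or.inl ⟨M.L - 1, by omega, by omega,
            (side_cross M.tree (rs_adj' hz m) hadj hx hs).2⟩
        · exact Or.inr ⟨hB, hs⟩
  rcases key with h1 | ⟨h1, h2⟩
  · exact h1
  · exact absurd (h' h1) h2

private theorem rs_seg {z : M.V} (m : ℕ) {i : ℕ} (hi : i < M.L) {t : ℝ} (h0 : 0 ≤ t)
    (h1 : t ≤ 1) : (1 - t) • ev (M.ray z m i) + t • ev (M.ray z m (i + 1)) ∈
      pl (M.ray z m) M.L '' Icc 0 (M.L : ℝ) := by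
  refine ⟨i + t, ⟨by positivity, ?_⟩, pl_eq _ _ _ hi t h0 h1⟩
  have : (i : ℝ) + 1 ≤ M.L := by exact_mod_cast hi
  linarith

private theorem rs_seg' {z : M.V} (m : ℕ) {i : ℕ} (hi : i < M.L) {t : ℝ} (h0 : 0 ≤ t)
    (h1 : t ≤ 1) : (1 - t) • ev (M.ray z m (i + 1)) + t • ev (M.ray z m i) ∈
      pl (M.ray z m) M.L '' Icc 0 (M.L : ℝ) := by
  rw [edge_symm]
  exact rs_seg m hi (by linarith) (by linarith)

private theorem rs_pos {a b v : M.V} (h : 0 < sg M.G a b (ev v)) : side M.G a b v := by
  by_contra hs
  rw [sg_ev_not hs] at h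
  exact lt_irrefl _ h

theorem ray_segment {z : M.V} (hz : z ∈ M.B) (m : ℕ) {p : M.V → ℝ} (hp : p ∈ real M.G)
    (h : 0 < sg M.G z (M.ray z m 1) p)
    (h' : M.ray z m M.L ∈ M.B → 0 < sg M.G (M.ray z m M.L) (M.ray z m (M.L - 1)) p) :
    p ∈ pl (M.ray z m) M.L '' Icc 0 (M.L : ℝ) := by
  have hL := M.L_ge hz
  rcases real_cases hp with ⟨v, rfl⟩ | ⟨a, b, hab, t, ht0, ht1, rfl⟩
  · obtain ⟨j, hj1, hj2, rfl⟩ := between hz m (rs_pos h) (fun hB => rs_pos (h' hB))
    refine ⟨j, ⟨by positivity, by exact_mod_cast hj2⟩, pl_nat _ hj2⟩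
  · by_cases he1 : s(a, b) = s(z, M.ray z m 1)
    · rcases Sym2.eq_iff.1 he1 with ⟨rfl, rfl⟩ | ⟨rfl, rfl⟩
      · have h2 := rs_seg (z := a) m (i := 0) (by omega) ht0.le ht1.le
        rw [M.ray_zero a hz m] at h2
        exact h2
      · have h2 := rs_seg' (z := b) m (i := 0) (by omega) ht0.le ht1.le
        rw [M.ray_zero b hz m] at h2
        exact h2
    · by_cases he2 : s(a, b) = s(M.ray z m M.L, M.ray z m (M.L - 1))
      · have he : M.L - 1 + 1 = M.L := by omega
        rcases Sym2.eq_iff.1 he2 with ⟨rfl, rfl⟩ | ⟨rfl, rfl⟩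
        · have h2 := rs_seg' (z := z) m (i := M.L - 1) (by omega) ht0.le ht1.le
          rw [he] at h2
          exact h2
        · have h2 := rs_seg (z := z) m (i := M.L - 1) (by omega) ht0.le ht1.le
          rw [he] at h2
          exact h2
      · rw [sg_other hab he1] at h
        rw [sg_other hab he2] at h'
        have ha := rs_pos h
        have hb := (side_adj hab he1).1 ha
        have ha' := fun hB => rs_pos (h' hB)
        have hb' := fun hB => (side_adj hab he2).1 (ha' hB)
        obtain ⟨i, hi1, hi2, rfl⟩ := between hz m ha ha'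
        obtain ⟨j, hj1, hj2, rfl⟩ := between hz m hb hb'
        have hij : j = i + 1 ∨ i = j + 1 := by
          rcases lt_or_eq_of_le hi2 with hlt | heq
          · rcases M.ray_int z hz m i (by omega) hlt _ hab with h3 | h3
            · have := rs_inj hz m hj2 (by omega) h3
              omega
            · have := rs_inj hz m hj2 (by omega) h3
              omega
          · rcases lt_or_eq_of_le hj2 with hlt | heq'
            · rcases M.ray_int z hz m j (by omega) hlt _ hab.symm with h3 | h3
              · have := rs_inj hz m hi2 (by omega) h3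
                omega
              · have := rs_inj hz m hi2 (by omega) h3
                omega
            · exfalso
              rw [heq, heq'] at hab
              exact hab.ne rfl
        rcases hij with rfl | rfl
        · exact rs_seg m (by omega) ht0.le ht1.le
        · exact rs_seg' m (by omega) ht0.le ht1.le

end Pool.Agent.DB
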