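import Pool.Agent.DB.F.Img
import Pool.Agent.DB.F.Hit
import Pool.Agent.DB.F.RayS

/-!
# DB-F-CaseC: late projections containing a vertex but no branch vertex

PLAN.  `l ≥ l0`, `y = x l`, `C = img A (l+1)`, `ev w ∈ C`, `ev y ∉ C`, `ev y ∉ img A l` (`h`, `y ∈ B`).
(1) Let `p ∈ C` with `p y ≠ 0`: `p = (1-s) ev y + s ev v`, `v = ray y E 1`, `0 < s < 1` (`star_cases`; `s ≠ 0`).
`0 < sg G y v p`, so `0 < sg G y v q` for all `q ∈ C` (`sg_clopen`), in particular for `ev w`: it is `1`
(`sg_ev_side/not`).  `sg_ivt` (`p`, `ev w`): `(1-σ) ev y + σ ev v ∈ C` for `s ≤ σ < 1`.  So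
`armPt y E '' [s, 1) ⊆ img A l` (`f_edge`) does not contain `ev y`: by `arm_int` no `m/(E+1)`, `m ≤ E`, is in
`[s, 1)`, so `E/(E+1) < s`, and `f y p = pl (ray y E) L ((E+1) s - E)` (`arm_exit`)
`= (1 - h) ev y + h ev v`, `h = (E+1) s - E < 1`.
(2) Injectivity of `f y` on `C`: `p, q ∈ C` with the same image.  If `p y = 0 = q y`: `f_off`.  If `p y = 0 ≠ q y`: the
image of `q` has a non-zero coordinate at `y`, the image `p` of `p` has not.  If both are non-zero: the same arm
(`0 < sg G y v q`, `dir_unique`), the same height `h`, so the same `s`.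
(3) The path: `w` is on a ray: `M.cover`: `w = ray z m j`, `z ∈ B`, `0 < j ≤ L` (`w ∉ B`; if `j = L` it is not
in `B`).  `w_k = ray z m k`, `N = L`, injective (`ray_inj`).  For `p ∈ img A l0`: `0 < sg G z (ray z m 1) p`
(`sg_clopen` at `z`, `sg (ev w) = 1` because `side G z (ray z m 1) (ray z m j)`), and if `ray z m L ∈ B`:
`0 < sg G (ray z m L) (ray z m (L-1)) p`.  File RayS: `ray_segment` then gives `p = pl (ray z m) L h`.
-/

namespace Pool.Agent.DB

open Set

variable {M : Model} {x : ℕ → M.V}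

private theorem ev_self' {V : Type} [DecidableEq V] (a : V) : (ev a : V → ℝ) a = 1 := by
  rw [ev_apply, if_pos rfl]

private theorem ev_ne' {V : Type} [DecidableEq V] {a b : V} (h : a ≠ b) : (ev a : V → ℝ) b = 0 := by
  rw [ev_apply, if_neg (Ne.symm h)]

/-- (1) of the plan -/
private theorem key {y : M.V} (hy : y ∈ M.B) {C : Set (M.V → ℝ)} (hC : C ⊆ real M.G)
    (hc : IsPreconnected C) {w : M.V} (hw : ev w ∈ C) (h1 : ev y ∉ C) (h2 : ev y ∉ M.f y '' C)
    {p : M.V → ℝ} (hp : p ∈ C) (h0 : p y ≠ 0) :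
    ∃ E ∈ M.arms y, ∃ s : ℝ, (E : ℝ) / ((E : ℝ) + 1) < s ∧ s < 1 ∧
      p = (1 - s) • ev y + s • ev (M.ray y E 1) ∧
      M.f y p = (1 - (((E : ℝ) + 1) * s - E)) • ev y +
        (((E : ℝ) + 1) * s - E) • ev (M.ray y E 1) := by
  rcases M.star_cases hy (hC hp) with h3 | ⟨E, hE, s, hs0, hs1, hps⟩
  · exact absurd h3 h0
  have hadj := M.arm_adj hy E
  have hsg : sg M.G y (M.ray y E 1) p = s := by
    rw [hps, sg_edge M.tree hadj]
  have hs : 0 < s := by
    rcases hs0.eq_or_lt with h3 | h3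
    · exfalso
      apply h1
      rw [hps, ← h3] at hp
      simpa using hp
    · exact h3
  have hpos : 0 < sg M.G y (M.ray y E 1) (ev w) :=
    sg_clopen M.tree hadj hC hc h1 hp hw (by rw [hsg]; exact hs)
  have hone : sg M.G y (M.ray y E 1) (ev w) = 1 := by
    by_cases hsd : side M.G y (M.ray y E 1) w
    · exact sg_ev_side hsd
    · rw [sg_ev_not hsd] at hpos
      exact absurd hpos (lt_irrefl _)
  have hE1 : (0 : ℝ) < (E : ℝ) + 1 := by positivity
  have hEpos : 0 < E := by
    have := M.d_lt_arm hy hE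
    omega
  have hE0 : (0 : ℝ) < (E : ℝ) := by exact_mod_cast hEpos
  have hlt : (E : ℝ) / ((E : ℝ) + 1) < s := by
    by_contra hcon
    rw [not_lt] at hcon
    have hd0 : 0 < (E : ℝ) / ((E : ℝ) + 1) := by positivity
    have hd1 : (E : ℝ) / ((E : ℝ) + 1) < 1 := by
      rw [div_lt_one hE1]
      linarith
    have hmem := sg_ivt M.tree hadj hC hc hp hw hd0 hd1 (by rw [hsg]; exact hcon)
      (by rw [hone]; exact hd1.le)
    apply h2
    refine ⟨_, hmem, ?_⟩
    rw [M.f_edge hy hE hd0.le hd1.le, M.arm_int hy le_rfl]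
  refine ⟨E, hE, s, hlt, hs1, hps, ?_⟩
  have hEs : (E : ℝ) < ((E : ℝ) + 1) * s := by
    rw [div_lt_iff₀ hE1] at hlt
    linarith
  have hEs1 : ((E : ℝ) + 1) * s ≤ (E : ℝ) + 1 := by nlinarith
  have h3 : M.armPt y E s = pl (M.ray y E) M.L (((E : ℝ) + 1) * s - E) := by
    have h4 := M.arm_exit hy (E := E) (u := ((E : ℝ) + 1) * s) hEs.le hEs1
    rw [mul_div_cancel_left₀ _ hE1.ne'] at h4
    exact h4
  have hL := M.L_ge hy
  have h5 := pl_eq (M.ray y E) M.L 0 (by omega) (((E : ℝ) + 1) * s - E) (by linarith)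
    (by linarith)
  rw [show ((0 : ℕ) : ℝ) + (((E : ℝ) + 1) * s - E) = ((E : ℝ) + 1) * s - E by
    push_cast; ring, M.ray_zero y hy, zero_add] at h5
  conv_lhs => rw [hps]
  rw [M.f_edge hy hE hs.le hs1.le, h3, h5]

private theorem inj_step {y : M.V} (hy : y ∈ M.B) {C : Set (M.V → ℝ)} (hC : C ⊆ real M.G)
    (hc : IsPreconnected C) {w : M.V} (hw : ev w ∈ C) (h1 : ev y ∉ C)
    (h2 : ev y ∉ M.f y '' C) : InjOn (M.f y) C := by
  have hcoord : ∀ p ∈ C, p y ≠ 0 → M.f y p y ≠ 0 := by
    intro p hp h0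
    obtain ⟨E, hE, s, hs0, hs1, hps, hf⟩ := key hy hC hc hw h1 h2 hp h0
    have hne : M.ray y E 1 ≠ y := (M.arm_adj hy E).ne'
    rw [hf, Pi.add_apply, Pi.smul_apply, Pi.smul_apply, ev_self', ev_ne' hne, smul_eq_mul,
      smul_eq_mul, mul_one, mul_zero, add_zero]
    have hE1 : (0 : ℝ) < (E : ℝ) + 1 := by positivity
    have : ((E : ℝ) + 1) * s < (E : ℝ) + 1 := by nlinarith
    linarith
  intro p hp q hq hpq
  by_cases hp0 : p y = 0
  · by_cases hq0 : q y = 0
    · rw [M.f_off hp0, M.f_off hq0] at hpq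
      exact hpq
    · exfalso
      have h3 := hcoord q hq hq0
      rw [← hpq, M.f_off hp0] at h3
      exact h3 hp0
  · by_cases hq0 : q y = 0
    · exfalso
      have h3 := hcoord p hp hp0
      rw [hpq, M.f_off hq0] at h3
      exact h3 hq0
    · obtain ⟨E, hE, s, hs0, hs1, hps, hf⟩ := key hy hC hc hw h1 h2 hp hp0
      obtain ⟨E', hE', s', hs0', hs1', hqs, hf'⟩ := key hy hC hc hw h1 h2 hq hq0
      have hE1 : (0 : ℝ) < (E : ℝ) + 1 := by positivity
      have hE1' : (0 : ℝ) < (E' : ℝ) + 1 := by positivity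
      have hs : 0 < s := lt_of_le_of_lt (by positivity) hs0
      have hs' : 0 < s' := lt_of_le_of_lt (by positivity) hs0'
      have hadj := M.arm_adj hy E
      have hadj' := M.arm_adj hy E'
      have hsg : 0 < sg M.G y (M.ray y E 1) p := by
        rw [hps, sg_edge M.tree hadj]
        exact hs
      have hsg1 : 0 < sg M.G y (M.ray y E 1) q :=
        sg_clopen M.tree hadj hC hc h1 hp hq hsg
      have hsg2 : 0 < sg M.G y (M.ray y E' 1) q := by
        rw [hqs, sg_edge M.tree hadj']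
        exact hs'
      have hvv := dir_unique M.tree (hC hq) hadj hadj' hsg1 hsg2
      have hEE := M.arm_unique hy hE hE' hvv
      subst hEE
      have hne : M.ray y E 1 ≠ y := hadj.ne'
      rw [hf, hf'] at hpq
      have h5 := congrFun hpq y
      rw [Pi.add_apply, Pi.smul_apply, Pi.smul_apply, Pi.add_apply, Pi.smul_apply, Pi.smul_apply,
        ev_self', ev_ne' hne, smul_eq_mul, smul_eq_mul, smul_eq_mul, smul_eq_mul, mul_one,
        mul_zero, add_zero, mul_one, mul_zero, add_zero] at h5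
      have h6 : s = s' := by
        have h7 : ((E : ℝ) + 1) * s = ((E : ℝ) + 1) * s' := by linarith
        exact mul_left_cancel₀ hE1.ne' h7
      rw [hps, hqs, h6]

theorem case_c (hx : Good M x) {A : Set (ℕ → M.V → ℝ)} (hA : A ⊆ M.Lim x)
    (hAk : IsCompact A) (hAc : IsConnected A) {w : M.V} {l0 : ℕ}
    (hw : ∀ l, ev w ∈ img A l) (h : ∀ l, l0 ≤ l → ∀ v ∈ M.B, ev v ∉ img A l) :
    (∀ l, l0 ≤ l → InjOn (M.f (x l)) (img A (l + 1))) ∧
      ∃ (w : ℕ → M.V) (N : ℕ), (∀ i j, i ≤ N → j ≤ N → w i = w j → i = j) ∧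
        img A l0 ⊆ pl w N '' Icc 0 (N : ℝ) := by
  constructor
  · intro l hl
    refine inj_step (hx.1 l) (img_subset hA (l + 1)) (img_connected hAc (l + 1)).isPreconnected
      (hw (l + 1)) (h (l + 1) (by omega) _ (hx.1 l)) ?_
    rw [← img_step hA l]
    exact h l hl _ (hx.1 l)
  · obtain ⟨z, hz, m, j, hj, hwz⟩ := M.cover w
    have hwB : w ∉ M.B := fun hB => h l0 le_rfl w hB (hw l0)
    have hj0 : j ≠ 0 := by
      rintro rfl
      rw [M.ray_zero z hz] at hwz
      exact hwB (hwz ▸ hz)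
    have hL := M.L_ge hz
    have hCs := img_subset hA l0
    have hCc := (img_connected hAc l0).isPreconnected
    refine ⟨M.ray z m, M.L, ?_, ?_⟩
    · intro i j hi hj hij
      exact (M.ray_inj z hz m i m j hi hj hij).1
    · intro p hp
      refine ray_segment hz m (hCs hp) ?_ ?_
      · refine sg_clopen M.tree (M.arm_adj hz m) hCs hCc (h l0 le_rfl z hz) (hw l0) hp ?_
        have hsd : side M.G z (M.ray z m 1) w := by
          rw [hwz]
          exact side_ray hz m (by omega) hj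
        rw [sg_ev_side hsd]
        exact one_pos
      · intro hB
        have hjL : j < M.L := by
          rcases hj.eq_or_lt with h3 | h3
          · exfalso
            rw [h3] at hwz
            exact hwB (hwz ▸ hB)
          · exact h3
        have hadj : M.G.Adj (M.ray z m M.L) (M.ray z m (M.L - 1)) := by
          have h3 := M.ray_adj z hz m (M.L - 1) (by omega)
          rw [show M.L - 1 + 1 = M.L by omega] at h3
          exact h3.symm
        refine sg_clopen M.tree hadj hCs hCc (h l0 le_rfl _ hB) (hw l0) hp ?_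
        have hsd : side M.G (M.ray z m M.L) (M.ray z m (M.L - 1)) w := by
          rw [hwz]
          exact side_ray' hz m hjL
        rw [sg_ev_side hsd]
        exact one_pos

end Pool.Agent.DB
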