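import Pool.Agent.DB.F.Img
import Pool.Agent.DB.F.Hit

/-!
# DB-F-Full: a subcontinuum containing a branch vertex and a neighbour of it is everything

`P v := ∀ l, ev v ∈ img A l`.

PLAN.  `full_nbr`: let `E` be the arm with `E ≡ m` (`exists_arm`, `ray_per`).  For infinitely many `l`
(`hx.2`) `x l = y`: `img A (l+1)` contains `ev y`, `ev (ray y E 1)`, so the edge (`edge_sub`), so
`img A l = f y '' img A (l+1)` (`img_step`) contains `ev (ray y m' 1)` (`hits_one`); `img_all`.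
`full_ray`: given `m'`, there is an arm `E` with `E - 1 ≡ m'` (`exists_arm` for `m' + 1`); the edge of the arm `E` is
in `img A (l+1)` (`full_nbr`, `edge_sub`); `hits_last`; `ray_per`.
`F1`: call `y ∈ B` full if `P y` and `P (ray y m 1)` for some `m`.  Then `P (ray y m j)` for all `m`, `j ≤ L`.  If
`z = ray y m L ∈ B`: `ray_end`: `ray z m' 1 = ray y m (L - 1)`, so `z` is full.  All `v` have `P v`:
`Q v := ∃ z full, ∃ m j, j ≤ L ∧ v = ray z m j` is closed under adjacency: `v = ray z m j`, `0 < j < L`: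
`ray_int`; `j = 0`: `M.nbr`; `j = L`: `ray_end`: a branch vertex (full; `M.nbr`) or a leaf.  `M.tree.connected`
(walk induction from `y`).  Then `full_graph` for all `l` (`img_connected`), `eq_lim`.
-/

namespace Pool.Agent.DB

open Set

variable {M : Model} {x : ℕ → M.V}

private theorem fu_edge (hx : Good M x) {A : Set (ℕ → M.V → ℝ)} (hA : A ⊆ M.Lim x)
    (hAc : IsConnected A) {y : M.V} (hy : y ∈ M.B) (h : ∀ l, ev y ∈ img A l) {E : ℕ}
    (hm : ∀ l, ev (M.ray y E 1) ∈ img A l) (l : ℕ) (s : ℝ) (h0 : 0 ≤ s) (h1 : s ≤ 1) :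
    (1 - s) • ev y + s • ev (M.ray y E 1) ∈ img A l := by
  have hL := M.L_ge hy
  have hadj := M.ray_adj y hy E 0 (by omega)
  rw [M.ray_zero y hy E] at hadj
  exact edge_sub M.tree (img_subset hA l) (img_connected hAc l).isPreconnected hadj (h l) (hm l)
    h0 h1

theorem full_nbr (hx : Good M x) {A : Set (ℕ → M.V → ℝ)} (hA : A ⊆ M.Lim x)
    (hAc : IsConnected A) {y : M.V} (hy : y ∈ M.B) (h : ∀ l, ev y ∈ img A l) {m : ℕ}
    (hm : ∀ l, ev (M.ray y m 1) ∈ img A l) (m' : ℕ) (l : ℕ) : ev (M.ray y m' 1) ∈ img A l := by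
  obtain ⟨E, hE, hEm⟩ := M.exists_arm hy m
  have hper : M.ray y E 1 = M.ray y m 1 := M.ray_per y hy E m 1 hEm
  have hm2 : ∀ l, ev (M.ray y E 1) ∈ img A l := by
    intro l
    rw [hper]
    exact hm l
  refine img_all hx hA (fun n => ?_) l
  obtain ⟨k, hk, hxk⟩ := hx.2 y hy n
  refine ⟨k, hk, ?_⟩
  rw [img_step hA k, hxk]
  exact hits_one hy hE m' (fun s h0 h1 => fu_edge hx hA hAc hy h hm2 (k + 1) s h0 h1)

theorem full_ray (hx : Good M x) {A : Set (ℕ → M.V → ℝ)} (hA : A ⊆ M.Lim x)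
    (hAc : IsConnected A) {y : M.V} (hy : y ∈ M.B) (h : ∀ l, ev y ∈ img A l) {m : ℕ}
    (hm : ∀ l, ev (M.ray y m 1) ∈ img A l) (m' : ℕ) {j : ℕ} (hj : j ≤ M.L) (l : ℕ) :
    ev (M.ray y m' j) ∈ img A l := by
  obtain ⟨E, hE, hEm⟩ := M.exists_arm hy (m' + 1)
  have hd := M.d_lt_arm hy hE
  obtain ⟨e, rfl⟩ : ∃ e, E = e + 1 := ⟨E - 1, by omega⟩
  have hem : e ≡ m' [MOD M.d y] := Nat.ModEq.add_right_cancel' 1 hEm
  have hper : M.ray y m' j = M.ray y e j := (M.ray_per y hy e m' j hem).symm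
  have hm2 : ∀ l, ev (M.ray y (e + 1) 1) ∈ img A l :=
    fun l => full_nbr hx hA hAc hy h hm (e + 1) l
  rw [hper]
  refine img_all hx hA (fun n => ?_) l
  obtain ⟨k, hk, hxk⟩ := hx.2 y hy n
  refine ⟨k, hk, ?_⟩
  rw [img_step hA k, hxk]
  have := hits_last hy hE hj (C := img A (k + 1))
    (fun s h0 h1 => fu_edge hx hA hAc hy h hm2 (k + 1) s h0 h1)
  simpa using this

/-- (F1) -/
theorem F1 (hx : Good M x) {A : Set (ℕ → M.V → ℝ)} (hA : A ⊆ M.Lim x) (hAk : IsCompact A)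
    (hAc : IsConnected A) {y : M.V} (hy : y ∈ M.B) (h : ∀ l, ev y ∈ img A l) {m : ℕ}
    (hm : ∀ l, ev (M.ray y m 1) ∈ img A l) : A = M.Lim x := by
  have hL := M.L_ge hy
  have hQ : ∀ v, ∃ z ∈ M.B, (∀ l, ev z ∈ img A l) ∧ (∃ n, ∀ l, ev (M.ray z n 1) ∈ img A l) ∧
      ∃ n j, j ≤ M.L ∧ v = M.ray z n j := by
    intro v
    obtain ⟨p⟩ := M.tree.connected.preconnected v y
    induction p with
    | nil => exact ⟨_, hy, h, ⟨m, hm⟩, 0, 0, by omega, (M.ray_zero _ hy 0).symm⟩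
    | @cons w v y hadj p ih =>
      obtain ⟨z, hz, hPz, ⟨n, hn⟩, n', j, hj, rfl⟩ := ih hy h hm
      have hadj' := hadj.symm
      rcases Nat.eq_zero_or_pos j with rfl | hj0
      · rw [M.ray_zero z hz n'] at hadj'
        obtain ⟨n'', _, rfl⟩ := M.nbr z hz w hadj'
        exact ⟨z, hz, hPz, ⟨n, hn⟩, n'', 1, by omega, rfl⟩
      · rcases lt_or_eq_of_le hj with hlt | rfl
        · rcases M.ray_int z hz n' j hj0 hlt w hadj' with rfl | rfl
          · exact ⟨z, hz, hPz, ⟨n, hn⟩, n', j - 1, by omega, rfl⟩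
          · exact ⟨z, hz, hPz, ⟨n, hn⟩, n', j + 1, by omega, rfl⟩
        · rcases M.ray_end z hz n' with ⟨hB, n'', hn''⟩ | hleaf
          · obtain ⟨n₃, _, rfl⟩ := M.nbr _ hB w hadj'
            refine ⟨M.ray z n' M.L, hB, fun l => full_ray hx hA hAc hz hPz hn n' le_rfl l,
              ⟨n'', fun l => ?_⟩, n₃, 1, by omega, rfl⟩
            rw [hn'' 1 (by omega)]
            exact full_ray hx hA hAc hz hPz hn n' (by omega) l
          · exact ⟨z, hz, hPz, ⟨n, hn⟩, n', M.L - 1, by omega, hleaf w hadj'⟩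
  refine eq_lim hA hAk fun l => ?_
  refine full_graph M.tree (img_subset hA l) (img_connected hAc l).isPreconnected fun v => ?_
  obtain ⟨z, hz, hPz, ⟨n, hn⟩, n', j, hj, rfl⟩ := hQ v
  exact full_ray hx hA hAc hz hPz hn n' hj l

end Pool.Agent.DB
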