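import Pool.Agent.DB.D.Lim
import Pool.Agent.DB.Top.Sep

/-!
# DB-F-Img: projections of a subcontinuum of the limit

`img A l` is the `l`-th projection of `A ⊆ M.Lim x`.

PLAN.  `img_subset`, `img_step` from the definition of `Lim` (`z l = f (x l) (z (l+1))`).
`img_ev_step`: `ev v = z (l+1)`, so `z l = f (ev v) = ev v` (`f_ev`); `img_ev_down`: induction.
`img_all`: from `img_ev_down`: infinitely many `l` are enough.
`eq_lim`: `z ∈ Lim`; for every `l` choose `a_l ∈ A` with `a_l l = z l`; `a_l` and `z` agree in the coordinates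
`≤ l` (`inv_agree`, `lim_eq`), so `a_l → z` (`tendsto_pi_nhds`, eventually constant coordinates), `A` closed.
`full_graph`: a point of `real G` is a vertex or an interior point of an edge `ab` (`real_cases`);
`sg_ivt` with `p = ev a` (`sg = 0`), `q = ev b` (`sg = 1`).
`edge_sub`: the same for one edge: a connected `C ⊆ real G` containing `ev a`, `ev b`, `a` adjacent to `b`,
contains the whole edge.
`stable`: for `v : V` with `¬ ∀ l, ev v ∈ img A l` choose `l_v` with `ev v ∉ img A l_v`; `l0` = maximum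
(finitely many vertices; `Finset.sup`); `img_ev_down`.
-/

namespace Pool.Agent.DB

open Set

/-- the `l`-th projection -/
def img {α : Type*} (A : Set (ℕ → α)) (l : ℕ) : Set α := (fun z => z l) '' A

theorem full_graph {V : Type} [Fintype V] [DecidableEq V] {G : SimpleGraph V} (hG : G.IsTree)
    {C : Set (V → ℝ)} (hC : C ⊆ real G) (hc : IsPreconnected C) (h : ∀ v, ev v ∈ C) :
    C = real G := by
  refine Subset.antisymm hC fun p hp => ?_
  rcases real_cases hp with ⟨v, rfl⟩ | ⟨a, b, hab, t, h0, h1, rfl⟩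
  · exact h v
  · refine sg_ivt hG hab hC hc (h a) (h b) h0 h1 ?_ ?_
    · rw [sg_ev_not (side_left hG hab)]
      exact h0.le
    · rw [sg_ev_side (side_right G a b)]
      exact h1.le

theorem edge_sub {V : Type} [Fintype V] [DecidableEq V] {G : SimpleGraph V} (hG : G.IsTree)
    {C : Set (V → ℝ)} (hC : C ⊆ real G) (hc : IsPreconnected C) {a b : V} (hab : G.Adj a b)
    (ha : ev a ∈ C) (hb : ev b ∈ C) {t : ℝ} (h0 : 0 ≤ t) (h1 : t ≤ 1) :
    (1 - t) • ev a + t • ev b ∈ C := by
  rcases eq_or_lt_of_le h0 with h0' | h0'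
  · rw [← h0', sub_zero, one_smul, zero_smul, add_zero]
    exact ha
  · rcases eq_or_lt_of_le h1 with h1' | h1'
    · rw [h1', sub_self, one_smul, zero_smul, zero_add]
      exact hb
    · refine sg_ivt hG hab hC hc ha hb h0' h1' ?_ ?_
      · rw [sg_ev_not (side_left hG hab)]
        exact h0
      · rw [sg_ev_side (side_right G a b)]
        exact h1

variable {M : Model} {x : ℕ → M.V}

theorem img_subset {A : Set (ℕ → M.V → ℝ)} (hA : A ⊆ M.Lim x) (l : ℕ) :
    img A l ⊆ real M.G := by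
  rintro _ ⟨z, hz, rfl⟩
  exact (hA hz l).1

theorem img_compact {A : Set (ℕ → M.V → ℝ)} (hA : IsCompact A) (l : ℕ) :
    IsCompact (img A l) := by
  exact hA.image (continuous_apply l)

theorem img_connected {A : Set (ℕ → M.V → ℝ)} (hA : IsConnected A) (l : ℕ) :
    IsConnected (img A l) := by
  exact hA.image _ (continuous_apply l).continuousOn

theorem img_step {A : Set (ℕ → M.V → ℝ)} (hA : A ⊆ M.Lim x) (l : ℕ) :
    img A l = M.f (x l) '' img A (l + 1) := by
  ext p
  constructor
  · rintro ⟨z, hz, rfl⟩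
    exact ⟨z (l + 1), ⟨z, hz, rfl⟩, ((hA hz l).2).symm⟩
  · rintro ⟨_, ⟨z, hz, rfl⟩, rfl⟩
    exact ⟨z, hz, (hA hz l).2⟩

theorem img_ev_down (hx : Good M x) {A : Set (ℕ → M.V → ℝ)} (hA : A ⊆ M.Lim x) {v : M.V}
    {l l' : ℕ} (hl : l ≤ l') (h : ev v ∈ img A l') : ev v ∈ img A l := by
  obtain ⟨k, rfl⟩ := Nat.exists_eq_add_of_le hl
  induction k with
  | zero => exact h
  | succ k ih =>
    refine ih (by omega) ?_
    rw [img_step hA]
    exact ⟨ev v, h, M.f_ev (hx.1 _) v⟩

theorem img_all (hx : Good M x) {A : Set (ℕ → M.V → ℝ)} (hA : A ⊆ M.Lim x) {v : M.V}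
    (h : ∀ n, ∃ l, n ≤ l ∧ ev v ∈ img A l) (l : ℕ) : ev v ∈ img A l := by
  obtain ⟨l', hl', h'⟩ := h l
  exact img_ev_down hx hA hl' h'

theorem eq_lim {A : Set (ℕ → M.V → ℝ)} (hA : A ⊆ M.Lim x) (hc : IsCompact A)
    (h : ∀ l, img A l = real M.G) : A = M.Lim x := by
  refine Subset.antisymm hA fun z hz => ?_
  have h1 : ∀ l, ∃ a ∈ A, a l = z l := by
    intro l
    have h2 : z l ∈ img A l := by
      rw [h l]
      exact (hz l).1
    obtain ⟨a, ha, hal⟩ := h2
    exact ⟨a, ha, hal⟩
  choose a ha hal using h1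
  have hlim : Filter.Tendsto a Filter.atTop (nhds z) := by
    rw [tendsto_pi_nhds]
    intro i
    refine tendsto_const_nhds.congr' ?_
    filter_upwards [Filter.eventually_ge_atTop i] with l hl
    exact (inv_agree (K := real M.G) (g := fun k => M.f (x k)) (hA (ha l)) hz (hal l) hl).symm
  exact hc.isClosed.mem_of_tendsto hlim (Filter.Eventually.of_forall ha)

theorem stable (hx : Good M x) {A : Set (ℕ → M.V → ℝ)} (hA : A ⊆ M.Lim x) :
    ∃ l0, ∀ l, l0 ≤ l → ∀ v, ev v ∈ img A l → ∀ l', ev v ∈ img A l' := by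
  classical
  have h1 : ∀ v : M.V, ∃ n, (∀ l', ev v ∈ img A l') ∨ ev v ∉ img A n := by
    intro v
    by_cases h : ∀ l', ev v ∈ img A l'
    · exact ⟨0, Or.inl h⟩
    · push Not at h
      obtain ⟨n, hn⟩ := h
      exact ⟨n, Or.inr hn⟩
  choose n hn using h1
  refine ⟨Finset.univ.sup n, fun l hl v hv => ?_⟩
  rcases hn v with h | h
  · exact h
  · exact absurd (img_ev_down hx hA ((Finset.le_sup (Finset.mem_univ v)).trans hl) hv) h

end Pool.Agent.DB
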