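import Pool.Agent.DB.F.Full
import Pool.Agent.DB.F.Arc
import Pool.Agent.DB.F.CaseA
import Pool.Agent.DB.F.CaseB
import Pool.Agent.DB.F.CaseC

/-!
# DB-F-Main: the limit is an indecomposable arc continuum (assembly, helper36)
-/

namespace Pool.Agent.DB

open Set

variable {M : Model} {x : ℕ → M.V}

/-- with a branch vertex `y` and another vertex also a neighbour of `y` is in all projections -/
theorem exists_nbr {A : Set (ℕ → M.V → ℝ)} (hA : A ⊆ M.Lim x)
    (hAc : IsConnected A) {y v : M.V} (hy : y ∈ M.B) (hv : v ≠ y) (h : ∀ l, ev y ∈ img A l)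
    (h' : ∀ l, ev v ∈ img A l) : ∃ m, ∀ l, ev (M.ray y m 1) ∈ img A l := by
  obtain ⟨u, hyu, hs⟩ := exists_side M.tree hv
  obtain ⟨m, _, hm⟩ := M.nbr y hy u hyu
  refine ⟨m, fun l => ?_⟩
  rw [← hm]
  by_contra hcon
  have h1 : 0 < sg M.G u y (ev y) := by
    rw [sg_ev_side (side_right M.G u y)]
    exact one_pos
  have h2 := sg_clopen M.tree hyu.symm (img_subset hA l) (img_connected hAc l).2 hcon (h l)
    (h' l) h1
  have h3 : ¬ side M.G u y v := by
    rw [side_symm M.tree hyu]
    exact not_not.2 hs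
  rw [sg_ev_not h3] at h2
  exact lt_irrefl _ h2

theorem arc_core (hx : Good M x) {A : Set (ℕ → M.V → ℝ)} (hA : A ⊆ M.Lim x)
    (hAk : IsCompact A) (hAc : IsConnected A) (hn : A.Nontrivial) (hne : A ≠ M.Lim x) :
    Nonempty (A ≃ₜ Icc (0 : ℝ) 1) := by
  obtain ⟨l0, hl0⟩ := stable hx hA
  by_cases hP : ∃ v, ∀ l, ev v ∈ img A l
  · by_cases hB : ∃ y ∈ M.B, ∀ l, ev y ∈ img A l
    · obtain ⟨y, hy, hyP⟩ := hB
      have h1 : ∀ l, l0 ≤ l → ∀ v, ev v ∈ img A l → v = y := by
        intro l hl v hv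
        by_contra hvy
        obtain ⟨m, hm⟩ := exists_nbr hA hAc hy hvy hyP (hl0 l hl v hv)
        exact hne (F1 hx hA hAk hAc hy hyP hm)
      obtain ⟨hinj, w, N, hw, hA0⟩ := case_b hx hA hAk hAc hy hyP h1
      exact arc_of_inj hx hA hAk hAc hn hinj hw hA0
    · push Not at hB
      obtain ⟨w₀, hw₀⟩ := hP
      have h1 : ∀ l, l0 ≤ l → ∀ v ∈ M.B, ev v ∉ img A l := by
        intro l hl v hv hc
        obtain ⟨l', hl'⟩ := hB v hv
        exact hl' (hl0 l hl v hc l')
      obtain ⟨hinj, w, N, hw, hA0⟩ := case_c hx hA hAk hAc hw₀ h1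
      exact arc_of_inj hx hA hAk hAc hn hinj hw hA0
  · push Not at hP
    have h1 : ∀ l, l0 ≤ l → ∀ v, ev v ∉ img A l := by
      intro l hl v hc
      obtain ⟨l', hl'⟩ := hP v
      exact hl' (hl0 l hl v hc l')
    obtain ⟨hinj, w, N, hw, hA0⟩ := case_a hx hA hAk hAc h1
    exact arc_of_inj hx hA hAk hAc hn hinj hw hA0

theorem val_image_ne {M : Model} {x : ℕ → M.V} {A : Set (M.Lim x)} (h : A ≠ univ) :
    Subtype.val '' A ≠ M.Lim x := by
  intro hc
  apply h
  rw [eq_univ_iff_forall]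
  intro z
  have h1 : z.1 ∈ Subtype.val '' A := by
    rw [hc]
    exact z.2
  obtain ⟨w, hw, hwz⟩ := h1
  rwa [← Subtype.ext hwz]

theorem val_image_subset {M : Model} {x : ℕ → M.V} (A : Set (M.Lim x)) :
    Subtype.val '' A ⊆ M.Lim x := by
  rintro _ ⟨w, _, rfl⟩
  exact w.2

theorem val_image_compact {M : Model} {x : ℕ → M.V} (hx : Good M x) {A : Set (M.Lim x)}
    (h : IsClosed A) : IsCompact (Subtype.val '' A) := by
  have : CompactSpace (M.Lim x) := isCompact_iff_compactSpace.1 (lim_compact M x hx)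
  exact h.isCompact.image continuous_subtype_val

theorem lim_arc (M : Model) (x : ℕ → M.V) (hx : Good M x) : ArcCont (M.Lim x) := by
  intro A hAcl hAc hAn hAne
  obtain ⟨e⟩ := arc_core hx (val_image_subset A) (val_image_compact hx hAcl)
    (hAc.image _ continuous_subtype_val.continuousOn)
    (hAn.image Subtype.val_injective) (val_image_ne hAne)
  let φ : A → (Subtype.val '' A : Set (ℕ → M.V → ℝ)) := fun z => ⟨z.1.1, z.1, z.2, rfl⟩
  have hφ : Continuous φ :=
    (continuous_subtype_val.comp continuous_subtype_val).subtype_mk _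
  have hφb : Function.Bijective φ := by
    constructor
    · intro z w hzw
      exact Subtype.ext (Subtype.ext
        (congrArg (fun t : (Subtype.val '' A : Set (ℕ → M.V → ℝ)) => t.1) hzw))
    · rintro ⟨_, z, hz, rfl⟩
      exact ⟨⟨z, hz⟩, rfl⟩
  have : CompactSpace (M.Lim x) := isCompact_iff_compactSpace.1 (lim_compact M x hx)
  have : CompactSpace A := isCompact_iff_compactSpace.1 hAcl.isCompact
  have hΦ : A ≃ₜ (Subtype.val '' A : Set (ℕ → M.V → ℝ)) :=
    Continuous.homeoOfEquivCompactToT2 (f := Equiv.ofBijective φ hφb) hφ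
  exact ⟨hΦ.trans e⟩

/-- two subcontinua which cover the limit -/
theorem two_cover (hx : Good M x) {A B : Set (ℕ → M.V → ℝ)} (hA : A ⊆ M.Lim x)
    (hB : B ⊆ M.Lim x) (hAB : M.Lim x ⊆ A ∪ B) (v : M.V) :
    (∀ l, ev v ∈ img A l) ∨ ∀ l, ev v ∈ img B l := by
  have h1 : ∀ l, ev v ∈ img A l ∨ ev v ∈ img B l := by
    intro l
    obtain ⟨z, hz, hzl⟩ := lim_proj M x hx l (ev v) (ev_mem v)
    rcases hAB hz with h | h
    · exact Or.inl ⟨z, h, hzl⟩
    · exact Or.inr ⟨z, h, hzl⟩
  by_cases h : ∀ n, ∃ l, n ≤ l ∧ ev v ∈ img A l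
  · exact Or.inl (img_all hx hA h)
  · push Not at h
    obtain ⟨n, hn⟩ := h
    refine Or.inr (img_all hx hB fun k => ⟨max n k, le_max_right _ _, ?_⟩)
    exact (h1 _).resolve_left (hn _ (le_max_left _ _))

theorem indecomp_core (hx : Good M x) {A B : Set (ℕ → M.V → ℝ)} (hA : A ⊆ M.Lim x)
    (hAk : IsCompact A) (hAc : IsConnected A) (hB : B ⊆ M.Lim x) (hBk : IsCompact B)
    (hBc : IsConnected B) (hAB : M.Lim x ⊆ A ∪ B) {y : M.V} (hy : y ∈ M.B)
    (hyA : ∀ l, ev y ∈ img A l) : A = M.Lim x ∨ B = M.Lim x := by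
  by_cases hex : ∃ m, ∀ l, ev (M.ray y m 1) ∈ img A l
  · obtain ⟨m, hm⟩ := hex
    exact Or.inl (F1 hx hA hAk hAc hy hyA hm)
  · push Not at hex
    have hm : ∀ m l, ev (M.ray y m 1) ∈ img B l := by
      intro m
      rcases two_cover hx hA hB hAB (M.ray y m 1) with h | h
      · obtain ⟨l, hl⟩ := hex m
        exact absurd (h l) hl
      · exact h
    have hd := M.three_le y hy
    have hL := M.L_ge hy
    have hadj : ∀ m, M.G.Adj y (M.ray y m 1) := by
      intro m
      have h1 := M.ray_adj y hy m 0 (by omega)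
      rwa [M.ray_zero y hy] at h1
    have hne : M.ray y 0 1 ≠ M.ray y 1 1 := by
      intro h
      have h1 := (M.ray_inj y hy 0 1 1 1 (by omega) (by omega) h).2
      rcases h1 with h1 | h1
      · omega
      · have h2 : 0 % M.d y = 1 % M.d y := h1
        rw [Nat.zero_mod, Nat.mod_eq_of_lt (by omega)] at h2
        omega
    have hyB : ∀ l, ev y ∈ img B l := by
      intro l
      by_contra hcon
      have h1 : 0 < sg M.G y (M.ray y 0 1) (ev (M.ray y 0 1)) := by
        rw [sg_ev_side (side_right M.G _ _)]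
        exact one_pos
      have h1' : 0 < sg M.G y (M.ray y 1 1) (ev (M.ray y 1 1)) := by
        rw [sg_ev_side (side_right M.G _ _)]
        exact one_pos
      have h2 := sg_clopen M.tree (hadj 0) (img_subset hB l) (img_connected hBc l).2 hcon
        (hm 0 l) (hm 1 l) h1
      exact hne (dir_unique M.tree (ev_mem _) (hadj 0) (hadj 1) h2 h1')
    exact Or.inr (F1 hx hB hBk hBc hy hyB (hm 0))

theorem lim_indecomp (M : Model) (x : ℕ → M.V) (hx : Good M x) : Indecomp (M.Lim x) := by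
  intro A B hA hAc hB hBc hAB
  by_contra hcon
  push Not at hcon
  obtain ⟨hAn, hBn⟩ := hcon
  have hcov : M.Lim x ⊆ (Subtype.val '' A) ∪ (Subtype.val '' B) := by
    intro z hz
    have h1 : (⟨z, hz⟩ : M.Lim x) ∈ A ∪ B := by
      rw [hAB]
      exact mem_univ _
    rcases h1 with h1 | h1
    · exact Or.inl ⟨_, h1, rfl⟩
    · exact Or.inr ⟨_, h1, rfl⟩
  obtain ⟨y, hy⟩ := M.ne
  have hcA := hAc.image _ (continuous_subtype_val (p := fun z => z ∈ M.Lim x)).continuousOn
  have hcB := hBc.image _ (continuous_subtype_val (p := fun z => z ∈ M.Lim x)).continuousOn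
  rcases two_cover hx (val_image_subset A) (val_image_subset B) hcov y with h | h
  · rcases indecomp_core hx (val_image_subset A) (val_image_compact hx hA) hcA
      (val_image_subset B) (val_image_compact hx hB) hcB hcov hy h with h1 | h1
    · exact val_image_ne hAn h1
    · exact val_image_ne hBn h1
  · rw [union_comm] at hcov
    rcases indecomp_core hx (val_image_subset B) (val_image_compact hx hB) hcB
      (val_image_subset A) (val_image_compact hx hA) hcA hcov hy h with h1 | h1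
    · exact val_image_ne hBn h1
    · exact val_image_ne hAn h1

end Pool.Agent.DB
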